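import Pool.Agent.NTW.StmtsA

/-!
# NTW, row FSR: rescaling of the vertices
-/

set_option autoImplicit false

open Matrix Filter Topology

namespace Pool.Agent.NTW.H83

open Pool.Agent.PFS Pool.Agent.PFJ Pool.Agent.NTS Pool.Agent.NTW

theorem fsr (hFCS : FcsStmt) : FsrStmt := by
  intro n C hC K τ w r hw hr
  have hFs : ∀ i j, Fs C (r i • w i) (r j • w j) = Fs C (w i) (w j) := by
    intro i j
    have hri := hr i
    have hrj := hr j
    have hx : w i + w j ∈ closure C := hC.cl_add (hw i) (hw j)
    obtain ⟨-, -, h3, -, h5⟩ := hFCS n C hC (w i + w j) hx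
    refine h5 _ ((h3 _).1 ?_)
    obtain ⟨ε, hε, e1, e2, e3, e4⟩ : ∃ ε : ℝ, 0 < ε ∧ ε ≤ r i ∧ ε ≤ r j ∧ ε * r i ≤ 1 ∧
        ε * r j ≤ 1 := by
      refine ⟨min (min (r i) (r j)) (min (1 / r i) (1 / r j)), by positivity,
        (min_le_left _ _).trans (min_le_left _ _), (min_le_left _ _).trans (min_le_right _ _), ?_, ?_⟩
      · have : min (min (r i) (r j)) (min (1 / r i) (1 / r j)) ≤ 1 / r i :=
          (min_le_right _ _).trans (min_le_left _ _)
        calc _ ≤ 1 / r i * r i := mul_le_mul_of_nonneg_right this hri.le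
          _ = 1 := by field_simp
      · have : min (min (r i) (r j)) (min (1 / r i) (1 / r j)) ≤ 1 / r j :=
          (min_le_right _ _).trans (min_le_right _ _)
        calc _ ≤ 1 / r j * r j := mul_le_mul_of_nonneg_right this hrj.le
          _ = 1 := by field_simp
    refine ⟨ε, hε, ?_, ?_⟩
    · have e : w i + w j - ε • (r i • w i + r j • w j) =
          (1 - ε * r i) • w i + (1 - ε * r j) • w j := by
        module
      rw [e]
      exact hC.cl_add (hC.cl_smul (hw i) (by linarith)) (hC.cl_smul (hw j) (by linarith))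
    · have e : r i • w i + r j • w j - ε • (w i + w j) =
          (r i - ε) • w i + (r j - ε) • w j := by
        module
      rw [e]
      exact hC.cl_add (hC.cl_smul (hw i) (by linarith)) (hC.cl_smul (hw j) (by linarith))
  have hLf : ∀ i, Lf C τ (fun m => r m • w m) i = Lf C τ w i := by
    intro i
    unfold Lf
    split_ifs with h
    · exact Submodule.span_singleton_smul_eq (IsUnit.mk0 _ (hr i).ne') (w i)
    · exact hFs i (τ i)
  refine ⟨hFs, hLf, ?_⟩
  unfold Ws
  simp only [hLf]

end Pool.Agent.NTW.H83
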